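import Pool.Agent.H23.Ori3
import Pool.Agent.Lead.Nae
import Pool.Agent.H11.GDefs

set_option autoImplicit false

namespace Pool.Agent.Results.MP_563097_lc.Hard
open Pool.Agent.H11.PT Pool.Agent.H23.Ori Pool.Agent.Lead.Nae Finset

/-- an open packing: the open neighbourhoods of distinct members are disjoint -/
def OpenPack {V : Type} (G : SimpleGraph V) (S : Finset V) : Prop :=
  ∀ u ∈ S, ∀ v ∈ S, u ≠ v → Disjoint (G.neighborSet u) (G.neighborSet v)

/-- all inclusion-maximal open packings of the graph have the same size -/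
def Uniform (y : ℕ × List (ℕ × ℕ)) : Prop :=
  ∀ S T, Maximal (OpenPack (gr y.1 y.2)) S → Maximal (OpenPack (gr y.1 y.2)) T → #S = #T

abbrev F := List (ℕ × ℕ × ℕ)

def M (φ : F) : ℕ := (φ.map fun c => c.1 + c.2.1 + c.2.2 + 1).sum
def vs (φ : F) (j : ℕ) : List ℕ :=
  [(φ.getD j (0, 0, 0)).1, (φ.getD j (0, 0, 0)).2.1, (φ.getD j (0, 0, 0)).2.2]
def act (φ : F) (u : ℕ) : Prop :=
  ((u % 10 = 2 ∨ u % 10 = 3) ∧ u / 10 < φ.length) ∨ u = 10 * M φ + 3
def A (φ : F) (u v : ℕ) : Prop :=
  (u % 10 < 2 ∧ (v = 10 * (u / 10) + 4 ∨ v = u + 5)) ∨ (u % 10 = 0 ∧ v = u + 7) ∨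
    (act φ u ∧ (v = 8 ∨ (v % 10 = u % 10 + 3 ∧ (u = 10 * M φ + 3 ∨ v / 10 ∈ vs φ (u / 10))))) ∨
    (u = 10 * M φ + 3 ∧ v = 9)
noncomputable def red (φ : F) : ℕ × List (ℕ × ℕ) := (10 * M φ + 10,
  (List.range (10 * M φ + 10) ×ˢ List.range (10 * M φ + 10)).filter fun p => dc (A φ p.1 p.2))

theorem red_pt : PT red := by unfold red A act vs M; fun_prop

variable {φ : F}

theorem len_le (φ : F) : φ.length ≤ M φ := by
  unfold M
  induction φ with
  | nil => simp
  | cons c φ ih => simp only [List.length_cons, List.map_cons, List.sum_cons]; omega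

theorem vs_lt {i j : ℕ} (h : j < φ.length) (a : i ∈ vs φ j) : i < M φ := by
  have : φ[j].1 + φ[j].2.1 + φ[j].2.2 + 1 ≤ M φ :=
    List.single_le_sum (by simp) _ (List.mem_map_of_mem (List.getElem_mem h))
  simp only [vs, List.getD_eq_getElem _ _ h, List.mem_cons, List.not_mem_nil, or_false] at a
  omega

theorem ty {u v : ℕ} (h : A φ u v) : u % 10 < 4 ∧ 4 ≤ v % 10 := by
  unfold A act at h
  rcases h with h | h | ⟨h, g | ⟨g, -⟩⟩ | h <;> omega

theorem adj (u v : Fin (red φ).1) : (gr _ (red φ).2).Adj u v ↔ A φ u v ∨ A φ v u := by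
  have hu : u.val < 10 * M φ + 10 := u.2
  have hv : v.val < 10 * M φ + 10 := v.2
  simp only [gr, SimpleGraph.fromRel_adj, red, List.mem_filter, List.mem_product, List.mem_range,
    dc_iff, hu, hv, true_and]
  refine and_iff_right_of_imp fun h e => ?_
  subst e
  have := ty (h.elim id id)
  omega

def Cm (φ : F) (u v : ℕ) : Prop :=
  ∃ w < 10 * M φ + 10, (A φ u w ∨ A φ w u) ∧ (A φ v w ∨ A φ w v)

theorem cm (u v : Fin (red φ).1) : Disjoint ((gr _ (red φ).2).neighborSet u)
    ((gr _ (red φ).2).neighborSet v) ↔ ¬ Cm φ u v := by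
  simp only [Set.disjoint_left, SimpleGraph.mem_neighborSet, adj]
  exact ⟨fun h ⟨w, a, b, c⟩ => h (a := ⟨w, a⟩) b c, fun h w a b => h ⟨w, w.2, a, b⟩⟩

open Classical in
noncomputable def cl (φ : F) (u : ℕ) : ℕ :=
  if act φ u then 10 * M φ + 3 else if u % 10 = 1 then u - 1 else
    if u % 10 = 4 ∨ u % 10 = 5 then 10 * (u / 10) + 7 else if u % 10 = 6 ∨ u = 8 then 9 else u

theorem hub {u v : ℕ} (a : u < 10 * M φ + 10) (h : cl φ u = cl φ v) (d : u ≠ v) : Cm φ u v := by
  have l := len_le φ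
  have p : ∀ x, cl φ x = 10 * M φ + 3 → A φ x 8 := fun x e => .inr (.inr (.inl ⟨by
    by_contra f
    unfold cl at e
    rw [if_neg f] at e
    exact f (.inr (by split_ifs at e <;> omega)), .inl rfl⟩))
  have q : ∀ x, cl φ x = 9 → A φ (10 * M φ + 3) x := fun x e => by
    have : x = 9 ∨ x = 8 ∨ x % 10 = 6 := by unfold cl at e; split_ifs at e <;> omega
    obtain f | f | f := this
    exacts [.inr (.inr (.inr ⟨rfl, f⟩)), .inr (.inr (.inl ⟨.inr rfl, .inl f⟩)),
      .inr (.inr (.inl ⟨.inr rfl, .inr ⟨by omega, .inl rfl⟩⟩))]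
  by_cases c : cl φ u = 10 * M φ + 3
  · exact ⟨8, by omega, .inl (p u c), .inl (p v (h ▸ c))⟩
  by_cases c' : cl φ u = 9
  · exact ⟨_, by omega, .inr (q u c'), .inr (q v (h ▸ c'))⟩
  unfold cl at h c c'
  by_cases e : u % 10 < 2
  · exact ⟨10 * (u / 10) + 4, by omega, .inl (.inl (by omega)),
      .inl (.inl (by split_ifs at h c c' <;> omega))⟩
  · refine ⟨10 * (u / 10), by omega, .inr ?_, .inr ?_⟩ <;> unfold A <;> rw [← or_assoc] <;> left <;>
      split_ifs at h c c' <;> omega

variable {S : Finset (Fin (red φ).1)}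

theorem inj (h : OpenPack (gr _ (red φ).2) S) : Set.InjOn (fun u : Fin (red φ).1 => cl φ u) S :=
  fun u a v b e => by
    by_contra d
    exact (cm u v).1 (h u a v b d) (hub u.2 e fun f => d (Fin.ext f))

theorem blk (h : Maximal (OpenPack (gr _ (red φ).2)) S) {r : ℕ} (a : r < 10 * M φ + 10) :
    ∃ s ∈ S, s.val = r ∨ Cm φ r s := by
  by_contra! c
  refine (c ⟨r, a⟩ (h.2 (y := insert ⟨r, a⟩ S) (fun u x v y d => ?_) (subset_insert _ _)
    (mem_insert_self _ _))).1 rfl
  obtain rfl | x := mem_insert.1 x <;> obtain rfl | y := mem_insert.1 y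
  exacts [absurd rfl d, (cm _ _).2 (c v y).2, ((cm _ _).2 (c u x).2).symm, h.1 u x v y d]

theorem lit {r s : ℕ} (a : r % 10 < 2) (h : Cm φ r s) :
    cl φ s = cl φ r ∨ (act φ s ∧ s % 10 = r % 10 + 2) := by
  obtain ⟨w, -, b | b, c | c⟩ := h <;> have := ty b <;> have := ty c <;> try omega
  have : w / 10 = r / 10 ∧ (w % 10 = 4 ∨ w % 10 = r % 10 + 5 ∨ w % 10 = 7) := by
    unfold A act at b
    rcases b with h | h | ⟨h, -⟩ | h <;> omega
  have n : ∀ x, x % 10 < 2 → ¬ act φ x := fun x e f => by unfold act at f; omega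
  rcases c with h | h | ⟨h, g | ⟨g, -⟩⟩ | h
  · left; unfold cl; rw [if_neg (n s h.1), if_neg (n r a)]; split_ifs <;> omega
  · left; unfold cl; rw [if_neg (n s (by omega)), if_neg (n r a)]; split_ifs <;> omega
  · omega
  · exact .inr ⟨h, by unfold act at h; omega⟩
  · omega

theorem meet (h : Maximal (OpenPack (gr _ (red φ).2)) S) {u : ℕ} (a : u < 10 * M φ + 10)
    (b : ¬ act φ u) : ∃ s ∈ S, cl φ s = cl φ u := by
  by_contra! c
  by_cases e : u % 10 < 2
  · have n : ∀ x, x % 10 < 2 → ¬ act φ x := fun x e f => by unfold act at f; omega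
    have k : ∀ t < 2, ∃ s ∈ S, act φ s ∧ s.val % 10 = t + 2 := fun t d => by
      have q : cl φ (10 * (u / 10) + t) = cl φ u := by
        unfold cl; rw [if_neg b, if_neg (n _ (by omega))]; split_ifs <;> omega
      obtain ⟨s, x, y | y⟩ := blk h (r := 10 * (u / 10) + t) (by omega)
      · exact absurd (y ▸ q) (c s x)
      · obtain z | z := lit (by omega) y
        exacts [absurd (z.trans q) (c s x), ⟨s, x, z.1, by omega⟩]
    obtain ⟨s, x, y, z⟩ := k 0 (by omega)
    obtain ⟨s', x', y', z'⟩ := k 1 (by omega)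
    have := inj h.1 x x' (by simp only [cl, if_pos y, if_pos y'])
    subst this
    omega
  have q : cl φ u < 10 * M φ + 10 ∧ ¬ act φ (cl φ u) ∧ cl φ (cl φ u) = cl φ u ∧
      (cl φ u % 10 = 2 ∨ cl φ u % 10 = 3 ∨ cl φ u % 10 = 7 ∨ 8 ≤ cl φ u % 10 ∧ cl φ u ≠ 8) := by
    have : ¬ act φ (cl φ u) := fun f => by
      unfold cl at f
      rw [if_neg b] at f
      split_ifs at f <;> first | exact b f | (unfold act at f; omega)
    refine ⟨?_, this, ?_, ?_⟩ <;> (try rw [cl, if_neg this]) <;> unfold cl <;> rw [if_neg b] <;>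
      split_ifs <;> omega
  generalize cl φ u = r at *
  obtain ⟨s, x, y | ⟨w, -, f, g⟩⟩ := blk h q.1
  · exact c s x (y ▸ q.2.2.1)
  refine c s x ?_
  have n : ∀ x, 4 ≤ x % 10 → ¬ act φ x := fun x e f => by unfold act at f; omega
  have p : (r % 10 = 7 ∧ w + 7 = r) ∨ (r = 9 ∧ w = 10 * M φ + 3) := by
    obtain f | f := f
    · rcases f with f | f | f | f
      exacts [by omega, by omega, absurd f.1 q.2.1, absurd (.inr f.1) q.2.1]
    · rcases f with f | f | ⟨f, i | ⟨i, -⟩⟩ | f <;> (try unfold act at f) <;> omega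
  obtain g | g := g <;> have t := ty g
  · omega
  unfold cl
  rw [if_neg (n _ t.2)]
  rcases g with f | f | ⟨f, i | ⟨i, -⟩⟩ | f <;> (try unfold act at f) <;> split_ifs <;> omega

theorem full (h : Maximal (OpenPack (gr _ (red φ).2)) S) (a : ∃ s ∈ S, act φ s.val) :
    #S = #(univ.image fun u : Fin (red φ).1 => cl φ u) := by
  rw [← card_image_of_injOn (inj h.1)]
  congr 1
  refine (image_subset_image (subset_univ _)).antisymm fun r b => ?_
  obtain ⟨u, -, rfl⟩ := mem_image.1 b
  by_cases c : act φ u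
  · obtain ⟨s, x, y⟩ := a
    exact mem_image.2 ⟨s, x, by simp only [cl, if_pos y, if_pos c]⟩
  · exact mem_image.2 (meet h u.2 c)

theorem sound (h : ¬ NAE φ) : Uniform (red φ) := by
  have : ∀ S, Maximal (OpenPack (gr _ (red φ).2)) S → ∃ s ∈ S, act φ s.val := fun S m => by
    classical
    by_contra! c
    have l := len_le φ
    have k : ∀ j < φ.length, ∀ t < 2, ∃ i ∈ vs φ j, ∃ s ∈ S, s.val = 10 * i + t := fun j a t b => by
      obtain ⟨s, x, y | ⟨w, -, f, g⟩⟩ := blk m (r := 10 * j + t + 2) (by omega)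
      · exact absurd (.inl (by omega)) (c s x)
      obtain f | f := f <;> have := ty f <;> obtain g | g := g <;> have := ty g <;> try omega
      rcases g with g | g | g | g
      · rcases f with f | f | ⟨-, f | ⟨f, i | i⟩⟩ | f <;> try omega
        exact ⟨_, by rwa [show (10 * j + t + 2) / 10 = j by omega] at i, s, x, by omega⟩
      · rcases f with f | f | ⟨-, f | ⟨f, -⟩⟩ | f <;> omega
      exacts [absurd g.1 (c s x), absurd (.inr g.1) (c s x)]
    refine h ⟨fun i => decide (∃ s ∈ S, s.val = 10 * i), fun d e ⟨e1, e2⟩ => ?_⟩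
    obtain ⟨j, a, rfl⟩ := List.getElem_of_mem e
    obtain ⟨i, i1, i2⟩ := k j a 0 (by omega)
    obtain ⟨i', i3, s, x, y⟩ := k j a 1 (by omega)
    simp only [vs, List.getD_eq_getElem _ _ a, List.mem_cons, List.not_mem_nil, or_false,
      decide_eq_decide, add_zero] at i1 i2 i3 e1 e2
    obtain ⟨s', x', y'⟩ : ∃ s ∈ S, s.val = 10 * i' := by
      have : ∃ s ∈ S, s.val = 10 * φ[j].2.1 := by
        rcases i1 with rfl | rfl | rfl
        exacts [e1.1 i2, i2, e2.2 i2]
      rcases i3 with rfl | rfl | rfl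
      exacts [e1.2 this, this, e2.1 this]
    have n : ∀ x, x % 10 < 2 → ¬ act φ x := fun x e f => by unfold act at f; omega
    have := inj m.1 x x' (by
      simp only [cl]; rw [if_neg (n _ (by omega)), if_neg (n _ (by omega))]; split_ifs <;> omega)
    subst this
    omega
  exact fun S T a b => (full a (this S a)).trans (full b (this T b)).symm

theorem complete (h : NAE φ) (u : Uniform (red φ)) : False := by
  classical
  obtain ⟨σ, h⟩ := h
  have l := len_le φ
  obtain ⟨c0, hc⟩ : ∃ c : Fin (red φ).1, c.val = 10 * M φ + 3 :=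
    ⟨⟨10 * M φ + 3, show _ < 10 * M φ + 10 by omega⟩, rfl⟩
  obtain ⟨S, s1, s2⟩ := Finite.exists_le_maximal (p := OpenPack (gr _ (red φ).2))
    (a := {c0}) fun u a v b d =>
      absurd ((mem_singleton.1 a).trans (mem_singleton.1 b).symm) d
  obtain ⟨T, t1, t2⟩ := Finite.exists_le_maximal (p := OpenPack (gr (red φ).1 (red φ).2))
    (a := univ.filter fun v => v.val % 10 =
      if σ (v.val / 10) = true ∧ v.val / 10 < M φ then 0 else 1) fun x a y b d => (cm _ _).2 fun e => by
      have a := (mem_filter.1 a).2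
      have b := (mem_filter.1 b).2
      have n : ∀ x, x % 10 < 2 → ¬ act φ x := fun x e f => by unfold act at f; omega
      have a' : x.val % 10 < 2 := by split_ifs at a <;> omega
      have b' : y.val % 10 < 2 := by split_ifs at b <;> omega
      obtain g | g := lit a' e
      · unfold cl at g
        rw [if_neg (n _ a'), if_neg (n _ b')] at g
        have : x.val / 10 = y.val / 10 := by clear a b; split_ifs at g <;> omega
        rw [this, ← b] at a
        exact d (Fin.ext (by omega))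
      · omega
  have e := (u T S t2 s2).trans (full s2 ⟨_, s1 (mem_singleton_self _), .inr hc⟩)
  rw [← card_image_of_injOn (inj t2.1)] at e
  obtain ⟨v, v1, v2⟩ := mem_image.1 ((eq_of_subset_of_card_le (image_subset_image (subset_univ T))
    e.ge).ge (mem_image_of_mem _ (mem_univ c0)))
  have a : act φ v := by
    by_contra f
    simp only [cl, if_neg f, if_pos (show act φ c0 from .inr hc)] at v2
    exact f (.inr (by split_ifs at v2 <;> omega))
  obtain ⟨i, i1, i2, i3⟩ : ∃ i ≤ M φ, (v.val = 10 * M φ + 3 ∨ i ∈ vs φ (v.val / 10)) ∧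
      v.val % 10 = (if σ i = true ∧ i < M φ then 0 else 1) + 2 := by
    obtain ⟨a, b⟩ | a := a
    · have := h _ (List.getElem_mem b)
      obtain ⟨i, c, d⟩ : ∃ i ∈ vs φ (v.val / 10), σ i = decide (v.val % 10 = 2) := by
        simp only [vs, List.getD_eq_getElem _ _ b, List.mem_cons, List.not_mem_nil, or_false,
          exists_eq_or_imp, exists_eq_left]
        revert this
        generalize decide (v.val % 10 = 2) = a
        generalize σ φ[v.val / 10].1 = b, σ φ[v.val / 10].2.1 = c, σ φ[v.val / 10].2.2 = d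
        revert a b c d
        decide
      have := vs_lt b c
      refine ⟨i, by omega, .inr c, ?_⟩
      rcases a with a | a <;> simp [d, a, this]
    · exact ⟨M φ, le_rfl, .inl a, by simp [a]⟩
  have q : v.val % 10 = 2 ∨ v.val % 10 = 3 := by split_ifs at i3 <;> omega
  refine (cm _ _).1 (t2.1 v v1 ⟨10 * i + (v.val % 10 - 2), by simp only [red]; omega⟩
    (t1 (mem_filter.2 ⟨mem_univ _, ?_⟩)) fun f => ?_) ⟨10 * i + (v.val % 10 + 3), by omega,
      .inl (.inr (.inr (.inl ⟨a, .inr ⟨by omega, ?_⟩⟩))), .inl (.inl (by simp only []; omega))⟩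
  · simp only []
    rw [show (10 * i + (v.val % 10 - 2)) / 10 = i by omega]
    omega
  · have := congrArg Fin.val f
    simp only [] at this
    omega
  · rwa [show (10 * i + (v.val % 10 + 3)) / 10 = i by omega]

theorem result : NPHard fun y => ¬ Uniform y :=
  (hard_NAE.red red red_pt fun _ => ⟨complete, fun h => by_contra fun c => h (sound c)⟩).npHard

end Pool.Agent.Results.MP_563097_lc.Hard
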